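import Pool.Agent.C748Z.Core

set_option autoImplicit false

open Filter Asymptotics Pool.Agent.C748Z

namespace Pool.Agent.Results.MP_c748c6_nt.SimpleZeros

/-- Let `0 < θ ≤ 1`, `1 - θ ≤ b < 1`, `1 < A(x) ≤ √x` for large `x`, suppose that
`ψ(x) - x = O(x^b (log x)^j)` and `|m(x)| ≤ C (L(x) E_{A(x)}(x) + x^{-θ})` for large `x`. Q1 is the
case `θ = 1/4`, `L = 1`, `A` constant.
(1) If `L(x) A(x)^{1-b} = O((log x)^k)` then `|(s-1) ζ(s)| ≥ c (Re s - b)^{k+j+1}` for
`b < Re s ≤ b + 1`.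
(2) If `L(x) A(x)^{1-b} = o((log x)^k)`, `k ≥ 1`, then all zeros of `ζ` on the line `Re s = b` have
multiplicity at most `k + j`.
(3) Q1 implies: if `3/4 ≤ b < 1` and `ψ(x) - x = O(x^b)`, then there is `c > 0` such that
`|(ρ - 1) ζ'(ρ)| ≥ c` for every zero `ρ` of `ζ` on the line `Re s = b`.
(4) If `ζ` has a multiple zero `ρ` with `3/4 ≤ Re ρ < 1` and `ψ(x) - x = O(x^{Re ρ})`, then Q1 has
a negative answer: the bound with `θ = 1/4` fails for every constant `A > 1` even with any factor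
`L(x) = o(log x)` in front of `E_A(x)`, and also for the window `A(x) = (log x)^3`. -/
theorem result :
    (∀ (θ b : ℝ) (k j : ℕ) (A L : ℝ → ℝ), (∀ᶠ x in atTop, 1 < A x ∧ A x ^ 2 ≤ x) →
      θ ≤ 1 → 1 - θ ≤ b → b < 1 →
      ((fun x => L x * A x ^ (1 - b)) =O[atTop] fun x => Real.log x ^ k) →
      ((fun x => psi x - x) =O[atTop] fun x : ℝ => x ^ b * Real.log x ^ j) → Bound A θ L →
      ∃ c > 0, ∀ s : ℂ, b < s.re → s.re ≤ b + 1 → s ≠ 1 →
        c * (s.re - b) ^ (k + j + 1) ≤ ‖(s - 1) * riemannZeta s‖) ∧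
    (∀ (θ b : ℝ) (k j : ℕ) (A L : ℝ → ℝ), (∀ᶠ x in atTop, 1 < A x ∧ A x ^ 2 ≤ x) →
      θ ≤ 1 → 1 - θ ≤ b → b < 1 → 1 ≤ k →
      ((fun x => L x * A x ^ (1 - b)) =o[atTop] fun x => Real.log x ^ k) →
      ((fun x => psi x - x) =O[atTop] fun x : ℝ => x ^ b * Real.log x ^ j) →
      Bound A θ L → ∀ ρ : ℂ, ρ.re = b → analyticOrderAt riemannZeta ρ ≤ (k + j : ℕ)) ∧
    ((∃ A > 1, Bound (fun _ => A) (1 / 4) fun _ => 1) → ∀ b : ℝ, 3 / 4 ≤ b → b < 1 →
      ((fun x => psi x - x) =O[atTop] fun x : ℝ => x ^ b) →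
      ∃ c > 0, ∀ ρ : ℂ, riemannZeta ρ = 0 → ρ.re = b → c ≤ ‖(ρ - 1) * deriv riemannZeta ρ‖) ∧
    (∀ ρ : ℂ, 3 / 4 ≤ ρ.re → ρ.re < 1 → riemannZeta ρ = 0 → deriv riemannZeta ρ = 0 →
      ((fun x => psi x - x) =O[atTop] fun x : ℝ => x ^ ρ.re) →
      (∀ L : ℝ → ℝ, (L =o[atTop] fun x => Real.log x) →
        ¬ ∃ A > 1, Bound (fun _ => A) (1 / 4) L) ∧
      ¬ Bound (fun x => Real.log x ^ 3) (1 / 4) fun _ => 1) := by
  have p1 : ∀ (θ b : ℝ) (k j : ℕ) (A L : ℝ → ℝ), (∀ᶠ x in atTop, 1 < A x ∧ A x ^ 2 ≤ x) →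
      θ ≤ 1 → 1 - θ ≤ b → b < 1 →
      ((fun x => L x * A x ^ (1 - b)) =O[atTop] fun x => Real.log x ^ k) →
      ((fun x => psi x - x) =O[atTop] fun x : ℝ => x ^ b * Real.log x ^ j) → Bound A θ L →
      ∃ c > 0, ∀ s : ℂ, b < s.re → s.re ≤ b + 1 → s ≠ 1 →
        c * (s.re - b) ^ (k + j + 1) ≤ ‖(s - 1) * riemannZeta s‖ := by
    intro θ b k j A L hA hθ1 hθ hb hL hpsi hB
    exact lower hb (by linarith) (m_big hA hb hθ hL hpsi hB)
  have p2 : ∀ (θ b : ℝ) (k j : ℕ) (A L : ℝ → ℝ), (∀ᶠ x in atTop, 1 < A x ∧ A x ^ 2 ≤ x) →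
      θ ≤ 1 → 1 - θ ≤ b → b < 1 → 1 ≤ k →
      ((fun x => L x * A x ^ (1 - b)) =o[atTop] fun x => Real.log x ^ k) →
      ((fun x => psi x - x) =O[atTop] fun x : ℝ => x ^ b * Real.log x ^ j) →
      Bound A θ L → ∀ ρ : ℂ, ρ.re = b → analyticOrderAt riemannZeta ρ ≤ (k + j : ℕ) := by
    intro θ b k j A L hA hθ1 hθ hb hk hL hpsi hB ρ hρ
    exact order_le hb (by linarith) (m_little hA hb hθ hk hL hpsi hB) hρ
  refine ⟨p1, p2, ?_, ?_⟩
  · rintro ⟨A, hA, hB⟩ b hb1 hb hpsi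
    obtain ⟨c, hc, h⟩ := p1 (1 / 4) b 0 0 (fun _ => A) (fun _ => 1) (const_window hA)
      (by norm_num) (by linarith) hb
      (by simpa using isBigO_const_const (A ^ (1 - b)) (one_ne_zero (α := ℝ)) atTop)
      (by simpa using hpsi) hB
    refine ⟨c, hc, fun ρ hz hρ => deriv_ge hb hρ hz fun s h1 h2 h3 => ?_⟩
    simpa using h s h1 h2 h3
  · intro ρ h1 h2 hz hd hpsi
    have hρ1 : ρ ≠ 1 := by rintro rfl; simp at h2
    have hana : AnalyticAt ℂ riemannZeta ρ := by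
      have : DifferentiableOn ℂ riemannZeta {(1:ℂ)}ᶜ := fun s hs =>
        (differentiableAt_riemannZeta hs).differentiableWithinAt
      exact this.analyticAt (isOpen_compl_singleton.mem_nhds hρ1)
    have hord : ((2 : ℕ) : ℕ∞) ≤ analyticOrderAt riemannZeta ρ := by
      rw [natCast_le_analyticOrderAt_iff_iteratedDeriv_eq_zero hana]
      intro i hi
      interval_cases i
      · simpa using hz
      · simpa [iteratedDeriv_one] using hd
    have key : ∀ A L : ℝ → ℝ, (∀ᶠ x in atTop, 1 < A x ∧ A x ^ 2 ≤ x) →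
        ((fun x => L x * A x ^ (1 - ρ.re)) =o[atTop] fun x => Real.log x) →
        ¬ Bound A (1 / 4) L := by
      intro A L hA hL hB
      have := p2 (1 / 4) ρ.re 1 0 A L hA (by norm_num) (by linarith) h2 le_rfl
        (by simpa using hL) (by simpa using hpsi) hB ρ rfl
      have h3 := hord.trans this
      exact absurd h3 (by norm_num)
    constructor
    · rintro L hL ⟨A, hA, hB⟩
      refine key (fun _ => A) L (const_window hA) ?_ hB
      have := hL.mul_isBigO (isBigO_const_const (A ^ (1 - ρ.re)) (one_ne_zero (α := ℝ)) atTop)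
      simpa using this
    · refine key _ _ log_window ?_
      simp only [one_mul]
      have h3 : (fun x : ℝ => (Real.log x ^ 3) ^ (1 - ρ.re)) =O[atTop]
          fun x => Real.log x ^ ((3:ℝ) / 4) := by
        refine IsBigO.of_bound 1 ?_
        filter_upwards [Real.tendsto_log_atTop.eventually_ge_atTop 1] with x hx
        have hl0 : 0 ≤ Real.log x := by linarith
        rw [one_mul, Real.norm_of_nonneg (by positivity), Real.norm_of_nonneg (by positivity),
          ← Real.rpow_natCast, ← Real.rpow_mul hl0]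
        exact Real.rpow_le_rpow_of_exponent_le hx (by push_cast; linarith)
      refine h3.trans_isLittleO ?_
      have h4 : (fun t : ℝ => t ^ ((3:ℝ) / 4)) =o[atTop] fun t : ℝ => t := by
        rw [isLittleO_iff_tendsto' (by
          filter_upwards [eventually_gt_atTop 0] with t ht h using absurd h ht.ne')]
        refine (tendsto_rpow_neg_atTop (show (0:ℝ) < 1 / 4 by norm_num)).congr' ?_
        filter_upwards [eventually_gt_atTop 0] with t ht
        rw [eq_div_iff ht.ne', ← Real.rpow_add_one ht.ne']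
        norm_num
      have h5 := h4.comp_tendsto Real.tendsto_log_atTop
      simpa [Function.comp_def] using h5

end Pool.Agent.Results.MP_c748c6_nt.SimpleZeros
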